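import Mathlib
import Pool.Agent.K3h20.CR.Stm2
import Pool.Agent.Y87.TY.Log

set_option autoImplicit false

/-!
# Brick QUAD of project CR2: outside the Mandelbrot set the critical orbit moves fast with the
parameter
-/

open Complex Filter Topology Metric Set MeasureTheory N62a1eb23

namespace Pool.Agent.K3h77.CR

open Pool.Agent.H712R2 Pool.Agent.H713R2 Pool.Agent.Y272.TY Pool.Agent.K3h20.CR

theorem qo_eq_P (c : ℂ) (j : ℕ) : qo c j = P 2 (j + 1) c := by
  induction j with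
  | zero => rw [P_one le_rfl]; rfl
  | succ j ih => rw [P_succ, ← ih]; rfl

theorem differentiable_P (k : ℕ) : Differentiable ℂ (P 2 k) := by
  induction k with
  | zero =>
    have : P 2 0 = fun _ => 0 := by funext c; rfl
    rw [this]; fun_prop
  | succ k ih =>
    have : P 2 (k + 1) = fun c => (P 2 k c) ^ 2 + c := by
      funext c; exact P_succ 2 k c
    rw [this]; fun_prop

theorem notMem_of_esc {c : ℂ} (h : QEsc c) : c ∉ multibrotSet 2 := by
  intro hc
  apply hc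
  rw [tendsto_norm_atTop_iff_cobounded.symm]
  exact h

/-- Cauchy's estimate for the derivatives of the logarithms -/
theorem deriv_log_bound {β : ℂ → ℂ} {L : ℕ → ℂ → ℂ} (hL : IsLog 2 β L) {x : ℂ}
    (hx : x ∈ ball (0 : ℂ) 1) : ∃ M : ℝ, ∀ n, ‖L n x‖ ≤ M ∧ ‖deriv (L n) x‖ ≤ M := by
  have hx1 : ‖x‖ < 1 := mem_ball_zero_iff.1 hx
  set ρ : ℝ := (1 - ‖x‖) / 2 with hρ
  set r : ℝ := (1 + ‖x‖) / 2 with hr
  have hρ0 : 0 < ρ := by rw [hρ]; linarith
  have hr0 : 0 < r := by rw [hr]; positivity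
  have hr1 : r < 1 := by rw [hr]; linarith
  have hlog : 0 < Real.log 2 := Real.log_pos (by norm_num)
  set M0 : ℝ := 2 * Real.log 2 * r / (1 - r) with hM0
  have hM00 : 0 ≤ M0 := by
    have : 0 < 1 - r := by linarith
    positivity
  have key : ∀ n, ∀ y : ℂ, ‖y‖ ≤ r → ‖L n y‖ ≤ M0 := by
    intro n y hy
    have h1 := hL.bound n y (mem_ball_zero_iff.2 (hy.trans_lt hr1))
    have hK : 1 ≤ 2 ^ (n + 1) - 1 := by
      have : 1 < 2 ^ (n + 1) := Nat.one_lt_pow (by omega) (by omega)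
      omega
    have h2 : ‖y‖ ^ (2 ^ (n + 1) - 1) ≤ r := by
      calc ‖y‖ ^ (2 ^ (n + 1) - 1) ≤ ‖y‖ ^ 1 :=
            pow_le_pow_of_le_one (norm_nonneg _) (hy.trans hr1.le) hK
        _ ≤ r := by rw [pow_one]; exact hy
    refine h1.trans ?_
    rw [hM0]
    have h3 : 0 < 1 - r := by linarith
    gcongr
  have hsub : ∀ n, ‖deriv (L n) x‖ ≤ M0 / ρ := by
    intro n
    have hd : DiffContOnCl ℂ (L n) (ball x ρ) := by
      apply DifferentiableOn.diffContOnCl
      rw [closure_ball x hρ0.ne']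
      refine (hL.diff n).mono fun y hy => ?_
      rw [mem_closedBall, dist_eq_norm] at hy
      rw [mem_ball_zero_iff]
      have : ‖y‖ ≤ ‖y - x‖ + ‖x‖ := by
        have := norm_add_le (y - x) x
        rwa [sub_add_cancel] at this
      rw [hρ] at hy
      linarith
    refine Complex.norm_deriv_le_of_forall_mem_sphere_norm_le hρ0 hd fun y hy => ?_
    apply key
    rw [mem_sphere, dist_eq_norm] at hy
    have : ‖y‖ ≤ ‖y - x‖ + ‖x‖ := by
      have := norm_add_le (y - x) x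
      rwa [sub_add_cancel] at this
    rw [hy, hρ] at this
    rw [hr]
    linarith
  refine ⟨max M0 (M0 / ρ), fun n => ⟨(key n x ?_).trans (le_max_left _ _),
    (hsub n).trans (le_max_right _ _)⟩⟩
  rw [hr]; linarith

/-- the logarithmic derivative of the critical orbit in the exterior coordinate -/
theorem deriv_identity {β : ℂ → ℂ} (hβ : IsBeta 2 β) {L : ℕ → ℂ → ℂ} (hL : IsLog 2 β L) {x : ℂ}
    (hx : x ∈ ball (0 : ℂ) 1) (hx0 : x ≠ 0) (n : ℕ) :
    deriv (P 2 (n + 1)) (cc β x) * deriv (cc β) x =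
      P 2 (n + 1) (cc β x) * (deriv (L n) x - 2 ^ n / x) := by
  have hβd : DifferentiableAt ℂ β x := hβ.diff.differentiableAt (isOpen_ball.mem_nhds hx)
  have hcd : DifferentiableAt ℂ (cc β) x := by
    unfold cc
    exact (differentiableAt_inv_iff.2 hx0).mul hβd
  have hLd : DifferentiableAt ℂ (L n) x := (hL.diff n).differentiableAt (isOpen_ball.mem_nhds hx)
  have h1 : (fun y => Complex.exp (L n y)) =ᶠ[𝓝 x]
      fun y => y ^ (2 ^ n) * P 2 (n + 1) (cc β y) := by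
    filter_upwards [isOpen_ball.mem_nhds hx, isOpen_ne.mem_nhds hx0] with y hy hy0
    rw [hL.exp n y hy, BB_eq le_rfl β n y hy0]
    rfl
  have h2 : HasDerivAt (fun y => Complex.exp (L n y)) (Complex.exp (L n x) * deriv (L n) x) x :=
    hLd.hasDerivAt.cexp
  have h3 : HasDerivAt (fun y => P 2 (n + 1) (cc β y))
      (deriv (P 2 (n + 1)) (cc β x) * deriv (cc β) x) x :=
    ((differentiable_P (n + 1)) (cc β x)).hasDerivAt.comp x hcd.hasDerivAt
  have h4 := (hasDerivAt_pow (2 ^ n) x).mul h3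
  have h5 := (h2.congr_of_eventuallyEq h1.symm).unique h4
  have h6 : Complex.exp (L n x) = x ^ (2 ^ n) * P 2 (n + 1) (cc β x) := h1.eq_of_nhds
  rw [h6] at h5
  have hxp : x ^ (2 ^ n) ≠ 0 := pow_ne_zero _ hx0
  have h7 : x ^ (2 ^ n - 1) = x ^ (2 ^ n) / x := by
    have : 1 ≤ 2 ^ n := Nat.one_le_two_pow
    obtain ⟨k, hk⟩ := Nat.exists_eq_add_of_le' this
    rw [hk, Nat.add_sub_cancel, pow_succ]
    field_simp
  rw [h7] at h5
  push_cast at h5
  apply mul_left_cancel₀ hxp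
  rw [← sub_eq_zero] at h5 ⊢
  rw [← neg_eq_zero, ← h5]
  field_simp
  ring

theorem quad {c : ℂ} (h : QEsc c) (C : ℝ) : ∃ J : ℕ, C ≤ ‖qo c J‖ ∧
    C ≤ ‖deriv (fun t => qo t J) c‖ := by
  obtain ⟨β, hβ⟩ := exists_beta (d := 2) le_rfl
  obtain ⟨L, hL⟩ := Pool.Agent.Y87.TY.t 2 β le_rfl hβ
  obtain ⟨x, hx, hx0, hxc⟩ := hβ.surj c (notMem_of_esc h)
  have hxc' : cc β x = c := hxc
  obtain ⟨M, hM⟩ := deriv_log_bound hL hx
  have hx1 : ‖x‖ < 1 := mem_ball_zero_iff.1 hx
  have hxp : 0 < ‖x‖ := norm_pos_iff.2 hx0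
  have hD : ∀ n, ‖P 2 (n + 1) c‖ * (2 ^ n - M) ≤
      ‖deriv (P 2 (n + 1)) c‖ * ‖deriv (cc β) x‖ := by
    intro n
    have h1 := deriv_identity hβ hL hx hx0 n
    rw [hxc'] at h1
    rw [← norm_mul, h1, norm_mul]
    refine mul_le_mul_of_nonneg_left ?_ (norm_nonneg _)
    have h2 : ‖(2 ^ n / x : ℂ)‖ ≤ ‖deriv (L n) x - 2 ^ n / x‖ + ‖deriv (L n) x‖ := by
      have := norm_sub_le (deriv (L n) x) (deriv (L n) x - 2 ^ n / x)
      rw [sub_sub_cancel] at this
      linarith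
    have h3 : (2 : ℝ) ^ n ≤ ‖(2 ^ n / x : ℂ)‖ := by
      rw [norm_div, norm_pow, Complex.norm_ofNat, le_div_iff₀ hxp]
      have : (0 : ℝ) < 2 ^ n := by positivity
      nlinarith
    have h4 := (hM n).2
    linarith
  have hP : Tendsto (fun n : ℕ => ‖P 2 (n + 1) c‖) atTop atTop := by
    have h1 := h.comp (tendsto_add_atTop_nat 1)
    exact h1
  have h2n : Tendsto (fun n : ℕ => (2 : ℝ) ^ n - M) atTop atTop :=
    tendsto_atTop_add_const_right _ _ (tendsto_pow_atTop_atTop_of_one_lt (by norm_num))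
  have hprod : Tendsto (fun n : ℕ => ‖P 2 (n + 1) c‖ * ((2 : ℝ) ^ n - M)) atTop atTop :=
    hP.atTop_mul_atTop₀ h2n
  set b := ‖deriv (cc β) x‖ with hb
  have hb0 : 0 ≤ b := norm_nonneg _
  obtain ⟨J, hJ1, hJ2⟩ := ((hP.eventually_ge_atTop C).and
    (hprod.eventually_ge_atTop ((|C| + 1) * b + 1))).exists
  refine ⟨J, ?_, ?_⟩
  · rw [qo_eq_P]; exact hJ1
  · have hfun : (fun t => qo t J) = P 2 (J + 1) := by funext t; exact qo_eq_P t J
    rw [hfun]
    by_contra hcon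
    push Not at hcon
    have h3 := hD J
    have h4 : ‖deriv (P 2 (J + 1)) c‖ * b ≤ (|C| + 1) * b := by
      refine mul_le_mul_of_nonneg_right ?_ hb0
      have := le_abs_self C
      linarith
    linarith

theorem t_quad : Pool.Agent.K3h20.CR.St_quad :=
  Eventually.of_forall fun _ h C => quad h C

end Pool.Agent.K3h77.CR
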